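import Pool.Agent.H17.Cone.Stmts

/-!
# Existence of the parameters of the lattice
-/

set_option autoImplicit false

namespace Pool.Agent.H17.Cone

open MeasureTheory Filter Topology Module

namespace PAR

/-- The parameters `t`. -/
noncomputable def tt (τ : ℝ) : Fin 3 → ℝ := ![τ, τ, 1 - 2 * τ]

/-- The parameters `p`. -/
noncomputable def pp (b : Fin 3 → ℝ) (τ : ℝ) : Fin 3 → Fin 3 → ℝ := fun i j =>
  !![0, (1 + τ * (b 0 + b 1) - b 2) / 2, (1 + b 2 + (1 - τ) * (b 0 + b 1) + (b 0 - b 1)) / 2;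
    (1 + τ * (b 0 + b 1) - b 2) / 2, 0, (1 + b 2 + (1 - τ) * (b 0 + b 1) - (b 0 - b 1)) / 2;
    (1 + b 2 + τ * (b 0 - b 1)) / 2, (1 + b 2 - τ * (b 0 - b 1)) / 2, 0] i j

lemma det_eq (b : Fin 3 → ℝ) (τ : ℝ) :
    -(Ymat b (tt τ) (pp b τ)).det =
      1 / 4 * ((3 - 2 * τ + (1 + τ) * (b 0 + b 1) - b 2) *
        (1 - 2 * τ + 4 * τ ^ 2 + b 2 + (1 - τ) * (1 - 2 * τ) * (b 0 + b 1)) -
        (1 - 2 * τ + 2 * τ ^ 2) * (b 0 - b 1) ^ 2) := by
  rw [Ymat, Matrix.det_fin_three]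
  simp [tt, pp]
  ring

lemma par_of (b : Fin 3 → ℝ) (τ : ℝ) (h2 : 0 ≤ b 2) (h21 : b 2 ≤ b 1) (h10 : b 1 ≤ b 0)
    (h0 : b 0 ≤ 1) (ht : 0 < τ) (ht' : τ < 1 / 2)
    (o01 : 2 * τ ≤ 1 + τ * (b 0 + b 1) - b 2)
    (o12 : 2 * τ ≤ 1 + b 2 + (1 - τ) * (b 0 + b 1) - (b 0 - b 1))
    (o21 : 2 * (1 - 2 * τ) ≤ 1 + b 2 - τ * (b 0 - b 1)) :
    Par b (tt τ) (pp b τ) := by
  have hs : 0 ≤ b 0 + b 1 := by linarith
  have hd : 0 ≤ b 0 - b 1 := by linarith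
  have hτd : 0 ≤ τ * (b 0 - b 1) := mul_nonneg ht.le hd
  have hτ2 : 0 ≤ τ * b 2 := mul_nonneg ht.le h2
  have hτs : 0 ≤ (1 - τ) * (b 0 + b 1) := mul_nonneg (by linarith) hs
  constructor
  · intro i
    fin_cases i <;> simp [tt] <;> linarith
  · simp [tt]
    ring
  · simp [pp]
    ring
  · simp [pp]
    ring
  · simp [pp]
    ring
  · simp [pp, tt]
    nlinarith
  · simp [pp, tt]
    nlinarith
  · simp [pp, tt]
    nlinarith
  · intro i j hij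
    fin_cases i <;> fin_cases j <;> first | exact absurd rfl hij | (simp [pp, tt]; linarith)

end PAR

theorem par_thm (hI : INQStmt) : PARStmt := by
  intro b h2 h21 h10 h0 hc1 hc2
  have hs : 0 ≤ b 0 + b 1 := by linarith
  have hd : 0 ≤ b 0 - b 1 := by linarith
  have hd1 : b 0 - b 1 ≤ 1 := by linarith
  have hd2 : (b 0 - b 1) ^ 2 ≤ 1 := by nlinarith
  rcases hI (b 0) (b 1) (b 2) h2 h21 h10 h0 hc1 hc2 with ⟨hA, hA'⟩ | ⟨hB, hoff⟩
  · refine ⟨PAR.tt (1 / 3), PAR.pp b (1 / 3), ?_, ?_, ?_, ?_⟩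
    · exact PAR.par_of b (1 / 3) h2 h21 h10 h0 (by norm_num) (by norm_num) (by linarith)
        (by linarith) (by linarith)
    · rw [PAR.det_eq]
      have e1 : (7 / 3 : ℝ) ≤ 3 - 2 * (1 / 3) + (1 + 1 / 3) * (b 0 + b 1) - b 2 := by linarith
      have e2 : (7 / 9 : ℝ) ≤ 1 - 2 * (1 / 3) + 4 * (1 / 3) ^ 2 + b 2 +
          (1 - 1 / 3) * (1 - 2 * (1 / 3)) * (b 0 + b 1) := by
        norm_num
        linarith
      have e3 := mul_le_mul e1 e2 (by norm_num) (by linarith)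
      nlinarith
    · rw [PAR.det_eq]
      nlinarith
    · intro hb
      have := hA' hb
      rw [PAR.det_eq]
      nlinarith
  · have key : -(Ymat b (PAR.tt (2 / 5)) (PAR.pp b (2 / 5))).det <
        49 / 108 * (1 + b 0 + b 1 + b 2) := by
      rw [PAR.det_eq]
      nlinarith
    refine ⟨PAR.tt (2 / 5), PAR.pp b (2 / 5), ?_, ?_, key.le, fun _ => key⟩
    · exact PAR.par_of b (2 / 5) h2 h21 h10 h0 (by norm_num) (by norm_num) (by linarith)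
        (by linarith) (by linarith)
    · rw [PAR.det_eq]
      have e1 : (11 / 5 : ℝ) ≤ 3 - 2 * (2 / 5) + (1 + 2 / 5) * (b 0 + b 1) - b 2 := by linarith
      have e2 : (21 / 25 : ℝ) ≤ 1 - 2 * (2 / 5) + 4 * (2 / 5) ^ 2 + b 2 +
          (1 - 2 / 5) * (1 - 2 * (2 / 5)) * (b 0 + b 1) := by
        norm_num
        linarith
      have e3 := mul_le_mul e1 e2 (by norm_num) (by linarith)
      nlinarith

end Pool.Agent.H17.Cone
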